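import Mathlib

set_option autoImplicit false

namespace Pool.Agent.H426.KS

open Finset

/-- the number of `k`-element subsets of `s` with positive sum -/
noncomputable def cnt {ι : Type*} [DecidableEq ι] (k : ℕ) (s : Finset ι) (x : ι → ℝ) : ℕ :=
  ((s.powersetCard k).filter (fun S : Finset ι => 0 < ∑ i ∈ S, x i)).card

variable {ι : Type*} [DecidableEq ι]

lemma cnt_mono {k : ℕ} {s t : Finset ι} (h : s ⊆ t) (x : ι → ℝ) : cnt k s x ≤ cnt k t x := by
  unfold cnt
  apply card_le_card
  apply filter_subset_filter
  exact powersetCard_mono h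

/-- complementation -/
lemma dual {n k r : ℕ} (hk : 0 < k) (hr : 0 < r) (h : k + r = n) (x : Fin n → ℝ)
    (hx : 0 < ∑ i, x i) :
    ∃ z : Fin n → ℝ, 0 < ∑ i, z i ∧ cnt r univ z = cnt k univ x := by
  have hrR : (0 : ℝ) < r := by exact_mod_cast hr
  have hkR : (0 : ℝ) < k := by exact_mod_cast hk
  have hn : (n : ℝ) = k + r := by exact_mod_cast h.symm
  set S : ℝ := ∑ i, x i with hS
  refine ⟨fun i => S / r - x i, ?_, ?_⟩
  · rw [sum_sub_distrib, sum_const, card_univ, Fintype.card_fin, nsmul_eq_mul, hn, ← hS]
    have : (k + r : ℝ) * (S / r) - S = k * S / r := by field_simp; ring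
    rw [this]; positivity
  · unfold cnt
    have key : ∀ A : Finset (Fin n), A.card = k →
        ∑ i ∈ Aᶜ, (S / r - x i) = ∑ i ∈ A, x i := by
      intro A hA
      have hc : (Aᶜ).card = r := by rw [card_compl, Fintype.card_fin, hA]; omega
      have h2 := sum_add_sum_compl A x
      rw [sum_sub_distrib, sum_const, hc, nsmul_eq_mul]
      have : (r : ℝ) * (S / r) = S := by field_simp
      rw [this]; linarith
    apply card_nbij' (fun A => Aᶜ) (fun A => Aᶜ)
    · intro A hA
      simp only [coe_filter, mem_powersetCard, subset_univ, true_and, Set.mem_ofPred_eq] at hA ⊢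
      have hc : (Aᶜ).card = k := by rw [card_compl, Fintype.card_fin, hA.1]; omega
      refine ⟨hc, ?_⟩
      rw [← key _ hc, compl_compl]
      exact hA.2
    · intro A hA
      simp only [coe_filter, mem_powersetCard, subset_univ, true_and, Set.mem_ofPred_eq] at hA ⊢
      have hc : (Aᶜ).card = r := by rw [card_compl, Fintype.card_fin, hA.1]; omega
      refine ⟨hc, ?_⟩
      rw [key _ hA.1]
      exact hA.2
    · intro A _; simp
    · intro A _; simp

/-- if all the elements are positive, all `k`-subsets are -/
lemma cnt_all_pos {k : ℕ} (hk : 0 < k) (s : Finset ι) (x : ι → ℝ) (hx : ∀ i ∈ s, 0 < x i) :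
    cnt k s x = s.card.choose k := by
  unfold cnt
  rw [filter_true_of_mem, card_powersetCard]
  intro A hA
  rw [mem_powersetCard] at hA
  apply sum_pos
  · intro i hi; exact hx i (hA.1 hi)
  · rw [← card_pos]; omega

/-- a set of `2k` elements with positive sum has at least `C(2k-1,k)` positive `k`-subsets -/
lemma half {m : ℕ} (s : Finset ι) (x : ι → ℝ) (hs : s.card = 2 * m + 2)
    (hx : 0 < ∑ i ∈ s, x i) : (2 * m + 1).choose (m + 1) ≤ cnt (m + 1) s x := by
  have h1 := card_filter_add_card_filter_not
    (s := s.powersetCard (m + 1)) (fun S : Finset ι => 0 < ∑ i ∈ S, x i)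
  rw [card_powersetCard, hs] at h1
  have h2 : (2 * m + 2).choose (m + 1) = 2 * (2 * m + 1).choose (m + 1) := by
    rw [Nat.choose_succ_succ' (2 * m + 1) m, Nat.choose_symm_half m]; ring
  have h3 : ((s.powersetCard (m + 1)).filter (fun S : Finset ι => ¬ 0 < ∑ i ∈ S, x i)).card ≤
      ((s.powersetCard (m + 1)).filter (fun S : Finset ι => 0 < ∑ i ∈ S, x i)).card := by
    apply card_le_card_of_injOn (fun A => s \ A)
    · intro A hA
      simp only [coe_filter, mem_powersetCard, Set.mem_ofPred_eq] at hA ⊢
      refine ⟨⟨sdiff_subset, ?_⟩, ?_⟩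
      · rw [card_sdiff_of_subset hA.1.1, hs, hA.1.2]; omega
      · have := sum_sdiff (f := x) hA.1.1
        linarith [hA.2]
    · intro A hA B hB hAB
      simp only [coe_filter, mem_powersetCard, Set.mem_ofPred_eq] at hA hB
      have h := congrArg (fun T => s \ T) hAB
      simp only [Finset.sdiff_sdiff_eq_self hA.1.1, Finset.sdiff_sdiff_eq_self hB.1.1] at h
      exact h
  unfold cnt
  omega

/-- lower bound for `2k+1` elements -/
lemma odd_lower {m : ℕ} (x : Fin (2 * m + 3) → ℝ) (hx : 0 < ∑ i, x i) :
    (2 * m + 1).choose (m + 1) ≤ cnt (m + 1) univ x := by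
  by_cases h : ∀ i, 0 < x i
  · rw [cnt_all_pos (Nat.succ_pos m) univ x (fun i _ => h i), card_univ, Fintype.card_fin]
    exact Nat.choose_le_choose _ (by omega)
  · push Not at h
    obtain ⟨c, hc⟩ := h
    have h1 : (univ.erase c).card = 2 * m + 2 := by
      rw [card_erase_of_mem (mem_univ c), card_univ, Fintype.card_fin]; omega
    have h2 : 0 < ∑ i ∈ univ.erase c, x i := by
      have := add_sum_erase univ x (mem_univ c)
      linarith
    exact (half _ x h1 h2).trans (cnt_mono (erase_subset _ _) x)

/-- upper bound: `s` equal very negative elements -/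
lemma upper {n k s : ℕ} (hk : 0 < k) (h : s * k < n) :
    ∃ x : Fin n → ℝ, 0 < ∑ i, x i ∧ cnt k univ x ≤ (n - s).choose k := by
  have hsn : s ≤ n := by nlinarith
  have hkR : (1 : ℝ) ≤ k := by exact_mod_cast hk
  refine ⟨fun i => if i.val < s then -((k : ℝ) - 1) else 1, ?_, ?_⟩
  · have hcard : (univ.filter (fun i : Fin n => i.val < s)).card = s := by
      rw [Fin.card_filter_val_lt, min_eq_right hsn]
    have hcard2 : (univ.filter (fun i : Fin n => ¬ i.val < s)).card = n - s := by
      have := card_filter_add_card_filter_not (s := (univ : Finset (Fin n)))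
        (fun i : Fin n => i.val < s)
      rw [card_univ, Fintype.card_fin] at this
      omega
    rw [sum_ite, sum_const, sum_const, hcard, hcard2, nsmul_eq_mul, nsmul_eq_mul,
      Nat.cast_sub hsn]
    have : ((s * k : ℕ) : ℝ) < n := by exact_mod_cast h
    push_cast at this
    nlinarith
  · unfold cnt
    have hsub : ((univ.powersetCard k).filter (fun S : Finset (Fin n) =>
        0 < ∑ i ∈ S, (if i.val < s then -((k : ℝ) - 1) else 1))) ⊆
        (univ.filter (fun i : Fin n => ¬ i.val < s)).powersetCard k := by
      intro A hA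
      simp only [mem_filter, mem_powersetCard, subset_univ, true_and] at hA ⊢
      refine ⟨?_, hA.1⟩
      intro j hj
      simp only [mem_filter, mem_univ, true_and]
      intro hjs
      have h1 := add_sum_erase A (fun i : Fin n => if i.val < s then -((k : ℝ) - 1) else 1) hj
      simp only [hjs, if_true] at h1
      have h2 : ∑ i ∈ A.erase j, (if i.val < s then -((k : ℝ) - 1) else 1) ≤
          ∑ i ∈ A.erase j, (1 : ℝ) := by
        apply sum_le_sum
        intro i _
        split_ifs
        · linarith
        · exact le_refl _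
      have h3 : (A.erase j).card = k - 1 := by rw [card_erase_of_mem hj, hA.1]
      rw [sum_const, h3, nsmul_eq_mul, mul_one, Nat.cast_sub hk, Nat.cast_one] at h2
      linarith [hA.2]
    refine (card_le_card hsub).trans ?_
    rw [card_powersetCard]
    have hcard : (univ.filter (fun i : Fin n => i.val < s)).card = s := by
      rw [Fin.card_filter_val_lt, min_eq_right hsn]
    have := card_filter_add_card_filter_not (s := (univ : Finset (Fin n)))
      (fun i : Fin n => i.val < s)
    rw [card_univ, Fintype.card_fin] at this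
    apply Nat.choose_le_choose
    omega

end Pool.Agent.H426.KS
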