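import Mathlib
import Pool.Agent.Helper426.KS.Basic

set_option autoImplicit false

namespace Pool.Agent.H426.KS

open Finset

lemma per_sum {n : ℕ} (X : ℕ → ℝ) (hX : ∀ m, X (m + n) = X m) (c : ℕ) :
    ∑ m ∈ range n, X (m + c) = ∑ m ∈ range n, X m := by
  induction c with
  | zero => simp
  | succ c ih =>
    have h1 := sum_range_succ (fun m => X (m + c)) n
    have h2 := sum_range_succ' (fun m => X (m + c)) n
    have h3 : X (n + c) = X (0 + c) := by rw [zero_add, add_comm n c, hX]
    have h4 : ∑ m ∈ range n, X (m + (c + 1)) = ∑ m ∈ range n, X (m + 1 + c) := by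
      apply sum_congr rfl
      intro m _
      congr 1
      ring
    rw [h4]
    simp only [h3] at h1
    linarith

lemma split_sum (f : ℕ → ℝ) (g n' : ℕ) :
    ∑ t ∈ range n', ∑ b ∈ range g, f (g * t + b) = ∑ m ∈ range (g * n'), f m := by
  induction n' with
  | zero => simp
  | succ n' ih =>
    rw [sum_range_succ, ih, Nat.mul_succ, sum_range_add]

lemma block_sum {g n' : ℕ} (X : ℕ → ℝ) (hX : ∀ m, X (m + g * n') = X m) (k' : ℕ) :
    ∑ t ∈ range n', ∑ j ∈ range (g * k'), X (g * t + j) =
      k' * ∑ m ∈ range (g * n'), X m := by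
  induction k' with
  | zero => simp
  | succ k' ih =>
    have h1 : ∀ t ∈ range n', ∑ j ∈ range (g * (k' + 1)), X (g * t + j) =
        ∑ j ∈ range (g * k'), X (g * t + j) + ∑ b ∈ range g, X (g * t + b + g * k') := by
      intro t _
      rw [Nat.mul_succ, sum_range_add]
      congr 1
      apply sum_congr rfl
      intro b _
      congr 1
      ring
    rw [sum_congr rfl h1, sum_add_distrib, ih, split_sum (fun m => X (m + g * k')),
      per_sum X hX]
    push_cast
    ring

lemma perm_count_const {n : ℕ} (B A A' : Finset (Fin n)) (h : A.card = A'.card) :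
    (univ.filter (fun σ : Equiv.Perm (Fin n) => B.map σ.toEmbedding = A)).card =
    (univ.filter (fun σ : Equiv.Perm (Fin n) => B.map σ.toEmbedding = A')).card := by
  have main : ∀ A A' : Finset (Fin n), A.card = A'.card →
      (univ.filter (fun σ : Equiv.Perm (Fin n) => B.map σ.toEmbedding = A)).card ≤
      (univ.filter (fun σ : Equiv.Perm (Fin n) => B.map σ.toEmbedding = A')).card := by
    intro A A' h
    have e : {x // x ∈ A} ≃ {x // x ∈ A'} := equivOfCardEq h
    let τ : Equiv.Perm (Fin n) := e.extendSubtype
    have hτ : A.map τ.toEmbedding = A' := by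
      apply eq_of_subset_of_card_le
      · intro y hy
        rw [mem_map] at hy
        obtain ⟨x, hx, rfl⟩ := hy
        exact e.extendSubtype_mem x hx
      · rw [card_map, h]
    apply card_le_card_of_injOn (fun σ => τ * σ)
    · intro σ hσ
      simp only [coe_filter, mem_univ, true_and, Set.mem_ofPred_eq] at hσ ⊢
      rw [← hτ, ← hσ, map_map]
      rfl
    · intro σ _ σ' _ hh
      exact mul_left_cancel hh
  exact le_antisymm (main A A' h) (main A' A h.symm)

lemma perm_count {n k : ℕ} (B A : Finset (Fin n)) (hB : B.card = k) (hA : A.card = k) :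
    (univ.filter (fun σ : Equiv.Perm (Fin n) => B.map σ.toEmbedding = A)).card * n.choose k =
      n.factorial := by
  have h1 : (univ : Finset (Equiv.Perm (Fin n))).card =
      ∑ A' ∈ (univ : Finset (Fin n)).powersetCard k,
        (univ.filter (fun σ : Equiv.Perm (Fin n) => B.map σ.toEmbedding = A')).card := by
    apply card_eq_sum_card_fiberwise
    intro σ _
    rw [mem_coe, mem_powersetCard]
    exact ⟨subset_univ _, by rw [card_map, hB]⟩
  have h2 : ∀ A' ∈ (univ : Finset (Fin n)).powersetCard k,
      (univ.filter (fun σ : Equiv.Perm (Fin n) => B.map σ.toEmbedding = A')).card =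
      (univ.filter (fun σ : Equiv.Perm (Fin n) => B.map σ.toEmbedding = A)).card := by
    intro A' hA'
    rw [mem_powersetCard] at hA'
    exact perm_count_const B A' A (hA'.2.trans hA.symm)
  rw [sum_congr rfl h2, sum_const, card_powersetCard] at h1
  simp only [card_univ, Fintype.card_perm, Fintype.card_fin, smul_eq_mul] at h1
  rw [h1, mul_comm]

lemma perm_count_family {n k : ℕ} (B : Finset (Fin n)) (hB : B.card = k)
    (F : Finset (Finset (Fin n))) (hF : ∀ A ∈ F, A.card = k) :
    (univ.filter (fun σ : Equiv.Perm (Fin n) => B.map σ.toEmbedding ∈ F)).card * n.choose k =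
      F.card * n.factorial := by
  have h1 : (univ.filter (fun σ : Equiv.Perm (Fin n) => B.map σ.toEmbedding ∈ F)).card =
      ∑ A ∈ F, ((univ.filter (fun σ : Equiv.Perm (Fin n) => B.map σ.toEmbedding ∈ F)).filter
        (fun σ : Equiv.Perm (Fin n) => B.map σ.toEmbedding = A)).card := by
    apply card_eq_sum_card_fiberwise
    intro σ hσ
    simp only [coe_filter, mem_univ, true_and, Set.mem_ofPred_eq] at hσ
    exact hσ
  have h2 : ∀ A ∈ F, ((univ.filter (fun σ : Equiv.Perm (Fin n) =>
        B.map σ.toEmbedding ∈ F)).filter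
        (fun σ : Equiv.Perm (Fin n) => B.map σ.toEmbedding = A)).card * n.choose k =
        n.factorial := by
    intro A hA
    rw [← perm_count B A hB (hF A hA), filter_filter]
    congr 2
    ext σ
    simp only [mem_filter, mem_univ, true_and]
    constructor
    · rintro ⟨_, h⟩; exact h
    · intro h; exact ⟨h ▸ hA, h⟩
  rw [h1, sum_mul, sum_congr rfl h2, sum_const, smul_eq_mul]

/-- the cyclic lower bound -/
lemma cyclic_lower {n k n' g k' : ℕ} (hndef : n = g * n') (hkdef : k = g * k') (hg : 0 < g)
    (hk' : 0 < k') (hkn : k ≤ n) (x : Fin n → ℝ) (hx : 0 < ∑ i, x i) :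
    n.choose k ≤ n' * cnt k univ x := by
  have hn : 0 < n := lt_of_lt_of_le (hkdef ▸ Nat.mul_pos hg hk') hkn
  let r : ℕ → Fin n := fun m => ⟨m % n, Nat.mod_lt _ hn⟩
  let B : ℕ → Finset (Fin n) := fun t => (range k).image (fun j => r (g * t + j))
  have hinj : ∀ t, Set.InjOn (fun j => r (g * t + j)) (range k : Set ℕ) := by
    intro t i hi j hj hij
    have hi' : i < k := by simpa using hi
    have hj' : j < k := by simpa using hj
    have h1 : (g * t + i) % n = (g * t + j) % n := by
      have := congrArg Fin.val hij
      exact this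
    have h2 : (g * t + i) ≡ (g * t + j) [MOD n] := h1
    have h3 := Nat.ModEq.add_left_cancel' (g * t) h2
    exact Nat.ModEq.eq_of_lt_of_lt h3 (by omega) (by omega)
  have hBcard : ∀ t, (B t).card = k := by
    intro t
    rw [card_image_of_injOn (hinj t), card_range]
  obtain ⟨F, hF⟩ : ∃ F, F = (univ.powersetCard k).filter
      (fun S : Finset (Fin n) => 0 < ∑ i ∈ S, x i) := ⟨_, rfl⟩
  have hFk : ∀ A ∈ F, A.card = k := by
    intro A hA
    rw [hF, mem_filter, mem_powersetCard] at hA
    exact hA.1.2
  have hex : ∀ σ : Equiv.Perm (Fin n), ∃ t ∈ range n', (B t).map σ.toEmbedding ∈ F := by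
    intro σ
    let X : ℕ → ℝ := fun m => x (σ (r m))
    have hX : ∀ m, X (m + g * n') = X m := by
      intro m
      have : r (m + g * n') = r m := by
        apply Fin.ext
        change (m + g * n') % n = m % n
        rw [← hndef]
        exact Nat.add_mod_right m n
      change x (σ (r (m + g * n'))) = x (σ (r m))
      rw [this]
    have hS : ∑ m ∈ range (g * n'), X m = ∑ i, x i := by
      rw [← hndef, sum_range]
      have : ∀ i : Fin n, X i.val = x (σ i) := by
        intro i
        have : r i.val = i := by
          apply Fin.ext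
          exact Nat.mod_eq_of_lt i.isLt
        change x (σ (r i.val)) = x (σ i)
        rw [this]
      rw [sum_congr rfl (fun i _ => this i)]
      exact Equiv.sum_comp σ x
    have hb := block_sum (g := g) (n' := n') X hX k'
    rw [hS, ← hkdef] at hb
    have hpos : 0 < ∑ t ∈ range n', ∑ j ∈ range k, X (g * t + j) := by
      rw [hb]
      have : (0 : ℝ) < k' := by exact_mod_cast hk'
      positivity
    obtain ⟨t, ht, htp⟩ := exists_lt_of_sum_lt (s := range n') (f := fun _ => (0 : ℝ))
      (g := fun t => ∑ j ∈ range k, X (g * t + j)) (by simpa using hpos)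
    refine ⟨t, ht, ?_⟩
    rw [hF, mem_filter, mem_powersetCard]
    refine ⟨⟨subset_univ _, by rw [card_map, hBcard]⟩, ?_⟩
    rw [sum_map, sum_image (hinj t)]
    exact htp
  have hcount : (univ : Finset (Equiv.Perm (Fin n))).card ≤
      ∑ t ∈ range n', (univ.filter (fun σ : Equiv.Perm (Fin n) =>
        (B t).map σ.toEmbedding ∈ F)).card := by
    refine (card_le_card ?_).trans card_biUnion_le
    intro σ _
    rw [mem_biUnion]
    obtain ⟨t, ht, h⟩ := hex σ
    exact ⟨t, ht, by rw [mem_filter]; exact ⟨mem_univ _, h⟩⟩
  rw [card_univ, Fintype.card_perm, Fintype.card_fin] at hcount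
  have h1 : n.factorial * n.choose k ≤ (n' * F.card) * n.factorial := by
    calc n.factorial * n.choose k ≤ (∑ t ∈ range n', (univ.filter
          (fun σ : Equiv.Perm (Fin n) => (B t).map σ.toEmbedding ∈ F)).card) * n.choose k :=
          Nat.mul_le_mul_right _ hcount
      _ = ∑ t ∈ range n', F.card * n.factorial := by
          rw [sum_mul]
          apply sum_congr rfl
          intro t _
          exact perm_count_family (B t) (hBcard t) F hFk
      _ = (n' * F.card) * n.factorial := by
          rw [sum_const, card_range, smul_eq_mul]; ring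
  have h2 : n.choose k * n.factorial ≤ (n' * F.card) * n.factorial := by
    rw [mul_comm (n.choose k)]; exact h1
  have h3 : F.card = cnt k univ x := by rw [hF]; rfl
  rw [← h3]
  exact Nat.le_of_mul_le_mul_right h2 n.factorial_pos

end Pool.Agent.H426.KS
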