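import Mathlib
import Pool.Agent.Helper426.KS.Basic

set_option autoImplicit false

namespace Pool.Agent.H426.KS

open Finset

variable {ι : Type*} [DecidableEq ι]

lemma step (s : Finset ι) (x : ι → ℝ) (hs : 3 ≤ s.card) (hx : 0 < ∑ i ∈ s, x i) :
    s.card - 1 ≤ cnt 2 s x ∨
    ∃ s' : Finset ι, ∃ v : ℕ, s'.card = s.card - 2 ∧ 0 < ∑ i ∈ s', x i ∧
      cnt 2 s' x + v ≤ cnt 2 s x ∧ cnt 2 s' x ≤ v.choose 2 := by
  have hne : s.Nonempty := by rw [← card_pos]; omega
  obtain ⟨a, ha, hamax⟩ := exists_max_image s x hne
  have hca : (s.erase a).card = s.card - 1 := card_erase_of_mem ha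
  have hne2 : (s.erase a).Nonempty := by rw [← card_pos]; omega
  obtain ⟨b, hb, hbmin⟩ := exists_min_image (s.erase a) x hne2
  by_cases hab : 0 < x a + x b
  · left
    have : (s.erase a).card ≤ cnt 2 s x := by
      unfold cnt
      apply card_le_card_of_injOn (fun j => ({a, j} : Finset ι))
      · intro j hj
        have hj' := mem_coe.1 hj
        rw [mem_erase] at hj'
        simp only [coe_filter, mem_powersetCard, Set.mem_ofPred_eq]
        refine ⟨⟨?_, card_pair (Ne.symm hj'.1)⟩, ?_⟩
        · intro t ht
          simp only [mem_insert, mem_singleton] at ht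
          rcases ht with rfl | rfl
          · exact ha
          · exact hj'.2
        · rw [sum_pair (Ne.symm hj'.1)]
          have := hbmin j (mem_coe.1 hj)
          linarith
      · intro i hi j hj hij
        have hi' := mem_coe.1 hi
        have hj' := mem_coe.1 hj
        rw [mem_erase] at hi' hj'
        have h1 : i ∈ ({a, j} : Finset ι) := by
          have : ({a, i} : Finset ι) = {a, j} := hij
          rw [← this]; simp
        simp only [mem_insert, mem_singleton] at h1
        rcases h1 with h1 | h1
        · exact absurd h1 hi'.1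
        · exact h1
    omega
  · right
    push Not at hab
    have hbs : b ∈ s ∧ b ≠ a := by rw [mem_erase] at hb; exact ⟨hb.2, hb.1⟩
    have has' : a ∉ (s.erase a).erase b := by simp
    refine ⟨(s.erase a).erase b, (((s.erase a).erase b).filter (fun j => 0 < x a + x j)).card,
      ?_, ?_, ?_, ?_⟩
    · rw [card_erase_of_mem hb, hca]; omega
    · have h1 := add_sum_erase s x ha
      have h2 := add_sum_erase (s.erase a) x hb
      linarith
    · unfold cnt
      have hdisj : Disjoint
          ((((s.erase a).erase b).powersetCard 2).filter (fun S : Finset ι => 0 < ∑ i ∈ S, x i))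
          ((((s.erase a).erase b).filter (fun j => 0 < x a + x j)).image
            (fun j => ({a, j} : Finset ι))) := by
        rw [disjoint_left]
        intro S hS hS2
        rw [mem_image] at hS2
        obtain ⟨j, _, hj⟩ := hS2
        rw [mem_filter, mem_powersetCard] at hS
        apply has'
        apply hS.1.1
        rw [← hj]; simp
      have hinj : ((((s.erase a).erase b).filter (fun j => 0 < x a + x j)).image
            (fun j => ({a, j} : Finset ι))).card =
            (((s.erase a).erase b).filter (fun j => 0 < x a + x j)).card := by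
        apply card_image_of_injOn
        intro i hi j hj hij
        have hi' := mem_coe.1 hi
        rw [mem_filter] at hi'
        have h1 : i ∈ ({a, j} : Finset ι) := by
          have : ({a, i} : Finset ι) = {a, j} := hij
          rw [← this]; simp
        simp only [mem_insert, mem_singleton] at h1
        rcases h1 with h1 | h1
        · exact absurd (h1 ▸ hi'.1) has'
        · exact h1
      rw [← hinj, ← card_union_of_disjoint hdisj]
      apply card_le_card
      intro S hS
      rw [mem_union] at hS
      rcases hS with hS | hS
      · rw [mem_filter, mem_powersetCard] at hS ⊢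
        exact ⟨⟨hS.1.1.trans ((erase_subset _ _).trans (erase_subset _ _)), hS.1.2⟩, hS.2⟩
      · rw [mem_image] at hS
        obtain ⟨j, hj, rfl⟩ := hS
        rw [mem_filter] at hj
        have hja : a ≠ j := by
          rintro rfl
          exact has' hj.1
        rw [mem_filter, mem_powersetCard]
        refine ⟨⟨?_, card_pair hja⟩, ?_⟩
        · intro t ht
          simp only [mem_insert, mem_singleton] at ht
          rcases ht with rfl | rfl
          · exact ha
          · exact ((erase_subset _ _).trans (erase_subset _ _)) hj.1
        · rw [sum_pair hja]; exact hj.2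
    · unfold cnt
      rw [← card_powersetCard]
      apply card_le_card
      intro S hS
      rw [mem_filter, mem_powersetCard] at hS
      rw [mem_powersetCard]
      refine ⟨?_, hS.1.2⟩
      intro i hi
      rw [mem_filter]
      refine ⟨hS.1.1 hi, ?_⟩
      obtain ⟨u, w, huw, hSuw⟩ := card_eq_two.1 hS.1.2
      have hsum : 0 < x u + x w := by
        have := hS.2
        rw [hSuw, sum_pair huw] at this
        exact this
      have hsub : ∀ t ∈ S, x t ≤ x a := fun t ht =>
        hamax t (((erase_subset _ _).trans (erase_subset _ _)) (hS.1.1 ht))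
      have hu := hsub u (by rw [hSuw]; simp)
      have hw := hsub w (by rw [hSuw]; simp)
      rw [hSuw] at hi
      simp only [mem_insert, mem_singleton] at hi
      rcases hi with rfl | rfl <;> linarith

/-- the value for pairs -/
def h2 (n : ℕ) : ℕ := if n = 3 then 1 else if n = 5 then 3 else n - 1

lemma two_lower (s : Finset ι) (x : ι → ℝ) (hs : s.card = 2) (hx : 0 < ∑ i ∈ s, x i) :
    1 ≤ cnt 2 s x := by
  unfold cnt
  rw [Nat.succ_le_iff, card_pos]
  exact ⟨s, by rw [mem_filter, mem_powersetCard]; exact ⟨⟨subset_rfl, hs⟩, hx⟩⟩

lemma three_lower (s : Finset ι) (x : ι → ℝ) (hs : s.card = 3) (hx : 0 < ∑ i ∈ s, x i) :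
    1 ≤ cnt 2 s x := by
  by_cases h : ∀ i ∈ s, 0 < x i
  · rw [cnt_all_pos (by norm_num) s x h, hs]; decide
  · push Not at h
    obtain ⟨c, hc, hc2⟩ := h
    refine (two_lower (s.erase c) x (by rw [card_erase_of_mem hc, hs]) ?_).trans
      (cnt_mono (erase_subset _ _) x)
    have := add_sum_erase s x hc
    linarith

lemma choose_two_lower {v c : ℕ} (h : c ≤ v.choose 2) (hc : 1 ≤ c) : 2 ≤ v := by
  by_contra hv
  have : v ≤ 1 := by omega
  interval_cases v <;> simp at h <;> omega

lemma choose_two_lower' {v c : ℕ} (h : c ≤ v.choose 2) (hc : 2 ≤ c) : 3 ≤ v := by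
  by_contra hv
  have : v ≤ 2 := by omega
  interval_cases v <;> simp at h <;> omega

lemma pairs_lower (n : ℕ) : ∀ (s : Finset ι) (x : ι → ℝ), s.card = n → 2 ≤ n →
    0 < ∑ i ∈ s, x i → h2 n ≤ cnt 2 s x := by
  induction n using Nat.strong_induction_on with
  | _ n ih =>
    intro s x hs hn hx
    rcases Nat.lt_or_ge n 3 with h3 | h3
    · have : n = 2 := by omega
      subst this
      have := two_lower s x hs hx
      simpa [h2] using this
    rcases Nat.eq_or_lt_of_le h3 with h3 | h3
    · subst h3
      have := three_lower s x hs hx
      simpa [h2] using this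
    have hle : h2 n ≤ n - 1 := by
      unfold h2; split_ifs <;> omega
    rcases step s x (by omega) hx with h | ⟨s', v, hs', hx', hc1, hc2⟩
    · rw [hs] at h; omega
    · have h1 := ih (n - 2) (by omega) s' x (by rw [hs', hs]) (by omega) hx'
      have hpos : 1 ≤ h2 (n - 2) := by unfold h2; split_ifs <;> omega
      have hv := choose_two_lower hc2 (hpos.trans h1)
      rcases Nat.lt_or_ge n 6 with h6 | h6
      · have : n = 4 ∨ n = 5 := by omega
        rcases this with rfl | rfl
        · simp [h2] at h1 ⊢; omega
        · simp [h2] at h1 ⊢; omega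
      · have h22 : 2 ≤ h2 (n - 2) := by unfold h2; split_ifs <;> omega
        have hv' := choose_two_lower' hc2 (h22.trans h1)
        unfold h2 at h1 ⊢
        split_ifs at h1 ⊢ <;> omega

end Pool.Agent.H426.KS
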