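import Mathlib
import Pool.Agent.Helper426.KS.Basic

set_option autoImplicit false

namespace Pool.Agent.H426.KS

open Finset

/-- two-valued weights -/
lemma two_valued {n k a : ℕ} (ha : 0 < a) (han : a ≤ n) :
    ∃ x : Fin n → ℝ, 0 < ∑ i, x i ∧ cnt k univ x ≤
      ∑ i ∈ (range (k + 1)).filter (fun i => a * k ≤ n * i), a.choose i * (n - a).choose (k - i) := by
  have hkR : (0 : ℝ) < (k : ℝ) + 1 := by positivity
  have haR : (0 : ℝ) < a := by exact_mod_cast ha
  obtain ⟨x, hxdef⟩ : ∃ x : Fin n → ℝ, x = fun i =>
    if i.val < a then (n : ℝ) - a + 1 / ((k : ℝ) + 1) else -(a : ℝ) := ⟨_, rfl⟩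
  have hcard : (univ.filter (fun i : Fin n => i.val < a)).card = a := by
    rw [Fin.card_filter_val_lt, min_eq_right han]
  have hcard2 : (univ.filter (fun i : Fin n => ¬ i.val < a)).card = n - a := by
    have := card_filter_add_card_filter_not (s := (univ : Finset (Fin n)))
      (fun i : Fin n => i.val < a)
    rw [card_univ, Fintype.card_fin] at this
    omega
  have hsumA : ∀ A : Finset (Fin n), ∑ i ∈ A, x i =
      ((A.filter (fun i : Fin n => i.val < a)).card : ℝ) * ((n : ℝ) - a + 1 / ((k : ℝ) + 1)) -
      ((A.filter (fun i : Fin n => ¬ i.val < a)).card : ℝ) * a := by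
    intro A
    rw [hxdef, sum_ite, sum_const, sum_const, nsmul_eq_mul, nsmul_eq_mul]
    ring
  refine ⟨x, ?_, ?_⟩
  · rw [hsumA, hcard, hcard2, Nat.cast_sub han]
    have : (a : ℝ) * ((n : ℝ) - a + 1 / ((k : ℝ) + 1)) - ((n : ℝ) - a) * a =
        a / ((k : ℝ) + 1) := by ring
    rw [this]; positivity
  · unfold cnt
    have hsub : ((univ.powersetCard k).filter (fun S : Finset (Fin n) => 0 < ∑ i ∈ S, x i)) ⊆
        ((range (k + 1)).filter (fun i => a * k ≤ n * i)).biUnion (fun i =>
          (((univ.filter (fun i : Fin n => i.val < a)).powersetCard i) ×ˢ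
            ((univ.filter (fun i : Fin n => ¬ i.val < a)).powersetCard (k - i))).image
            (fun p => p.1 ∪ p.2)) := by
      intro A hA
      rw [mem_filter, mem_powersetCard] at hA
      obtain ⟨⟨_, hAk⟩, hpos⟩ := hA
      have hsplit := card_filter_add_card_filter_not (s := A) (fun i : Fin n => i.val < a)
      obtain ⟨u, hu⟩ : ∃ u, u = (A.filter (fun i : Fin n => i.val < a)).card := ⟨_, rfl⟩
      obtain ⟨v, hv⟩ : ∃ v, v = (A.filter (fun i : Fin n => ¬ i.val < a)).card := ⟨_, rfl⟩
      rw [← hu, ← hv, hAk] at hsplit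
      rw [hsumA, ← hu, ← hv] at hpos
      have hcond : a * k ≤ n * u := by
        by_contra hlt
        push Not at hlt
        have h1 : n * u + 1 ≤ a * k := hlt
        have h2 : (n : ℝ) * u + 1 ≤ a * k := by exact_mod_cast h1
        have h3 : (u : ℝ) + v = k := by exact_mod_cast hsplit
        have h4 : (u : ℝ) / ((k : ℝ) + 1) < 1 := by
          rw [div_lt_one hkR]
          have : (0 : ℝ) ≤ v := Nat.cast_nonneg v
          linarith
        have h5 : (u : ℝ) * ((n : ℝ) - a + 1 / ((k : ℝ) + 1)) - v * a =
            n * u - a * (u + v) + u / ((k : ℝ) + 1) := by ring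
        rw [h5, h3] at hpos
        linarith
      rw [mem_biUnion]
      refine ⟨u, ?_, ?_⟩
      · rw [mem_filter, mem_range]
        exact ⟨by omega, hcond⟩
      · rw [mem_image]
        refine ⟨(A.filter (fun i : Fin n => i.val < a), A.filter (fun i : Fin n => ¬ i.val < a)),
          ?_, ?_⟩
        · rw [mem_product, mem_powersetCard, mem_powersetCard]
          exact ⟨⟨filter_subset_filter _ (subset_univ _), hu.symm⟩,
            ⟨filter_subset_filter _ (subset_univ _), by rw [← hv]; omega⟩⟩
        · exact filter_union_filter_not_eq _ _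
    refine (card_le_card hsub).trans (card_biUnion_le.trans ?_)
    apply sum_le_sum
    intro i _
    refine card_image_le.trans ?_
    rw [card_product, card_powersetCard, card_powersetCard, hcard, hcard2]

end Pool.Agent.H426.KS
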